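import Pool.Agent.L0h18.FS.Final
import Pool.Agent.L0h18.FS.NA2
import Pool.Agent.L0h88.FS.COL
import Pool.Agent.L0h88.FS.DIAG
import Pool.Agent.L0h61.FS.MONO
import Pool.Agent.L0h39.FS.Step
import Pool.Agent.L0h39.FS.Sum

/-!
# The iterates of the computable FS-jump depend on the ordinal notation

Let `φ_e` be the standard numbering of the partial computable functions, `E^+` the computable Friedman-Stanley jump of an
equivalence relation on `ℕ` and `E^{+a}`, `a ∈ O`, its iterates along Kleene's notations. We show that there are two notations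
`a`, `b` of the ordinal `ω²` such that `id^{+a}` is not computably reducible to `id^{+b}`. So the degree of `E^{+a}` depends on
the notation `a` and not only on the ordinal `|a|`, already for `E = id`; this answers the question in the negative.

Proof in short. `b` is the standard notation: its fundamental sequence consists of the standard notations of `ω m`, and
`id^{+b} = ⊕_m F_m`. The fundamental sequence of `a` is `2^{a_0} <_O 2^{a_1} <_O …`, where `a_{n+1}` is built on top of `2^{a_n}`
in such a way that `|a_{n+1}| ≥ ω (t + 1)` if the `n`-th program halts after `t` steps. A reduction of a jump to a direct sum of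
relations has its image in one of the summands (recursion theorem), so a reduction of `id^{+a}` to `id^{+b}` gives a computable
function `m` such that `(id^{+a_n})^+ ≤ F_{m(n)}`. As `F_t ≤ id^{+a_{n+1}}` if the `n`-th program halts after `t` steps, and as
`(F_m)^+` is not reducible to `F_m`, the halting time is at most `m(n+1)`, and the halting problem is decidable. For
`(F_m)^+ ≰ F_m` we show by induction that the relation `F_m` is decided by two classes of a finite iterate of its jump.
-/

set_option autoImplicit false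

namespace Pool.Agent.Results.MP_52a9f3_lc.NotationDependence

open Nat.Partrec (Code)
open Ordinal

/-- The standard numbering `φ_e` of the partial computable functions. -/
def phi (e : ℕ) : ℕ →. ℕ := (Denumerable.ofNat Code e).eval

/-- Computable reducibility: `E ≤ F`. -/
def Reducible (E F : ℕ → ℕ → Prop) : Prop := ∃ f : ℕ → ℕ, Computable f ∧ ∀ n n', E n n' ↔ F (f n) (f n')

/-- The computable FS-jump `E^+`: the relation `{[φ_e(n)]_E : φ_e(n)↓} = {[φ_{e'}(n)]_E : φ_{e'}(n)↓}`. -/
def fsJump (E : ℕ → ℕ → Prop) (e e' : ℕ) : Prop :=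
  {c : Set ℕ | ∃ n, ∃ v ∈ phi e n, c = {w | E v w}} = {c : Set ℕ | ∃ n, ∃ v ∈ phi e' n, c = {w | E v w}}

/-- The direct sum: `⟨m, x⟩` and `⟨n, y⟩` are related if `m = n` and `x E_m y`. -/
def directSum (E : ℕ → ℕ → ℕ → Prop) (p q : ℕ) : Prop :=
  p.unpair.1 = q.unpair.1 ∧ E p.unpair.1 p.unpair.2 q.unpair.2

/-- The relation `<_O`. -/
inductive LtO : ℕ → ℕ → Prop
  | succ (a : ℕ) (h : 0 < a) : LtO a (2 ^ a)
  | lim (e n v : ℕ) (h : v ∈ phi e n) : LtO v (3 * 5 ^ e)
  | trans (a b c : ℕ) (h : LtO a b) (h' : LtO b c) : LtO a c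

/-- `Denotes a α`: `a ∈ O` and `|a| = α`. -/
inductive Denotes : ℕ → Ordinal.{0} → Prop
  | zero : Denotes 1 0
  | succ (a : ℕ) (α : Ordinal.{0}) (h : Denotes a α) : Denotes (2 ^ a) (α + 1)
  | lim (e : ℕ) (a : ℕ → ℕ) (α : ℕ → Ordinal.{0}) (ha : ∀ n, a n ∈ phi e n) (hlt : ∀ n, LtO (a n) (a (n + 1)))
      (h : ∀ n, Denotes (a n) (α n)) : Denotes (3 * 5 ^ e) (⨆ n, α n)

/-- `Iterate E a R`: `R` is the iterate `E^{+a}`, `a ∈ O`. -/
inductive Iterate (E : ℕ → ℕ → Prop) : ℕ → (ℕ → ℕ → Prop) → Prop
  | zero : Iterate E 1 E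
  | succ (b : ℕ) (R : ℕ → ℕ → Prop) (h : Iterate E b R) : Iterate E (2 ^ b) (fsJump R)
  | lim (e : ℕ) (a : ℕ → ℕ) (R : ℕ → ℕ → ℕ → Prop) (ha : ∀ n, a n ∈ phi e n) (h : ∀ n, Iterate E (a n) (R n)) :
      Iterate E (3 * 5 ^ e) (directSum R)

/-! ### `E^{+a}` is well defined -/

theorem not_iterate_zero {E R : ℕ → ℕ → Prop} (h : Iterate E 0 R) : False := by
  have key : ∀ a R, Iterate E a R → a ≠ 0 := by
    intro a R h
    cases h with
    | zero => exact one_ne_zero
    | succ b R h => exact (Nat.two_pow_pos b).ne'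
    | lim e a R ha h => positivity
  exact key 0 R h rfl

theorem pow_ne (b e : ℕ) : 2 ^ b ≠ 3 * 5 ^ e := by
  intro h
  have h1 : 3 ∣ 2 ^ b := ⟨5 ^ e, h⟩
  have h2 : 3 ∣ 2 := Nat.Prime.dvd_of_dvd_pow Nat.prime_three h1
  omega

/-- The iterate `E^{+a}` is unique. -/
theorem iterate_unique {E : ℕ → ℕ → Prop} {a : ℕ} {R R' : ℕ → ℕ → Prop} (h : Iterate E a R)
    (h' : Iterate E a R') : R = R' := by
  induction h generalizing R' with
  | zero =>
    generalize hk : (1 : ℕ) = k at h'
    cases h' with
    | zero => rfl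
    | succ b R h =>
      have : b = 0 := by
        rcases Nat.eq_zero_or_pos b with h0 | h0
        · exact h0
        · have := Nat.one_lt_two_pow h0.ne'
          omega
      subst this
      exact (not_iterate_zero h).elim
    | lim e a R ha h => exact (pow_ne 0 e (by rw [pow_zero]; exact hk)).elim
  | succ b R h ih =>
    generalize hk : 2 ^ b = k at h'
    cases h' with
    | zero =>
      have : b = 0 := by
        rcases Nat.eq_zero_or_pos b with h0 | h0
        · exact h0
        · have := Nat.one_lt_two_pow h0.ne'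
          omega
      subst this
      exact (not_iterate_zero h).elim
    | succ b' R' h'' =>
      have : b = b' := Nat.pow_right_injective le_rfl hk
      subst this
      rw [ih h'']
    | lim e a R ha h => exact (pow_ne b e hk).elim
  | lim e a R ha h ih =>
    generalize hk : 3 * 5 ^ e = k at h'
    cases h' with
    | zero => exact (pow_ne 0 e (by rw [pow_zero]; exact hk.symm)).elim
    | succ b' R' h'' => exact (pow_ne b' e hk.symm).elim
    | lim e' a' R' ha' h'' =>
      have : e = e' := by
        have h1 : 5 ^ e = 5 ^ e' := by omega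
        exact Nat.pow_right_injective (by norm_num) h1
      subst this
      have h2 : ∀ n, R n = R' n := by
        intro n
        have h3 : a n = a' n := Part.mem_unique (ha n) (ha' n)
        exact ih n (h3 ▸ h'' n)
      rw [funext h2]

/-- The iterate `E^{+a}` exists for `a ∈ O`. -/
theorem iterate_exists {E : ℕ → ℕ → Prop} {a : ℕ} {α : Ordinal.{0}} (h : Denotes a α) : ∃ R, Iterate E a R := by
  induction h with
  | zero => exact ⟨_, Iterate.zero⟩
  | succ a α h ih =>
    obtain ⟨R, hR⟩ := ih
    exact ⟨_, Iterate.succ _ _ hR⟩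
  | lim e a α ha hlt h ih =>
    choose R hR using ih
    exact ⟨_, Iterate.lim e a R ha hR⟩

/-! ### comparison with the definitions of the helper files -/

theorem lt_of {a b : ℕ} (h : Pool.Agent.L0h18.FS.LtO a b) : LtO a b := by
  induction h with
  | succ a h => exact LtO.succ a h
  | lim e n v h => exact LtO.lim e n v h
  | trans a b c h h' ih ih' => exact LtO.trans a b c ih ih'

theorem denotes_of {a : ℕ} {α : Ordinal.{0}} (h : Pool.Agent.L0h18.FS.Denotes a α) : Denotes a α := by
  induction h with
  | zero => exact Denotes.zero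
  | succ a α h ih => exact Denotes.succ a α ih
  | lim e a α ha hlt h ih => exact Denotes.lim e a α ha (fun n => lt_of (hlt n)) ih

theorem iterate_of {E : ℕ → ℕ → Prop} {a : ℕ} {R : ℕ → ℕ → Prop} (h : Pool.Agent.L0h18.FS.Iter E a R) :
    Iterate E a R := by
  induction h with
  | zero => exact Iterate.zero
  | succ b R h ih => exact Iterate.succ b R ih
  | lim e a R ha h ih => exact Iterate.lim e a R ha ih

/-- **The degree of `E^{+a}` depends on the notation.** There are notations `a`, `b ∈ O` of the ordinal `ω²` such that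
`id^{+a}` is not computably reducible to `id^{+b}`. -/
theorem result : ∃ a b : ℕ, Denotes a (ω * ω) ∧ Denotes b (ω * ω) ∧ ∃ A B : ℕ → ℕ → Prop,
    Iterate Eq a A ∧ Iterate Eq b B ∧ ¬ Reducible A B := by
  obtain ⟨a, b, ha, hb, A, B, hA, hB, h⟩ := Pool.Agent.L0h18.FS.final Pool.Agent.L0h61.FS.mono
    Pool.Agent.L0h39.FS.step Pool.Agent.L0h39.FS.sum Pool.Agent.L0h88.FS.diag Pool.Agent.L0h88.FS.col
    Pool.Agent.L0h18.FS.nb Pool.Agent.L0h18.FS.na
  exact ⟨a, b, denotes_of ha, denotes_of hb, A, B, iterate_of hA, iterate_of hB, h⟩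

end Pool.Agent.Results.MP_52a9f3_lc.NotationDependence
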